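import Pool.Agent.Lib.Cx.All
import Pool.Agent.MP_514f48_lc.Comb

-- part MP_514f48_lc.Sat
section

/-!
Satisfiability of a list of implications between literals, in polynomial time.
-/

namespace Pool.Agent.MP_514f48_lc

open Pool.Agent.Lib.Cx

/-- A literal: a variable and a sign. -/
abbrev Lit : Type := (ℕ × ℕ) × Bool

/-- The negated literal. -/
def neg (a : Lit) : Lit := (a.1, !a.2)

@[simp] theorem neg_neg' (a : Lit) : neg (neg a) = a := by simp [neg]

/-- One round of the search from `a`: the edges whose tail has been reached. -/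
def rstep (E : List (Lit × Lit)) (a : Lit) (G : List (Lit × Lit)) : List (Lit × Lit) :=
  E.filter (fun e => decide (e.1 = a ∨ ∃ g ∈ G, g.2 = e.1))

/-- The edges reachable from `a`. -/
def reach (E : List (Lit × Lit)) (a : Lit) : List (Lit × Lit) := (rstep E a)^[E.length] []

theorem rstep_mono (E : List (Lit × Lit)) (a : Lit) {G H : List (Lit × Lit)}
    (h : G.Sublist H) : (rstep E a G).Sublist (rstep E a H) := by
  refine List.monotone_filter_right _ fun e he => ?_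
  simp only [decide_eq_true_eq] at he ⊢
  rcases he with he | ⟨g, hg, he⟩
  · exact Or.inl he
  · exact Or.inr ⟨g, h.subset hg, he⟩

theorem iter_sub (E : List (Lit × Lit)) (a : Lit) (i : ℕ) :
    ((rstep E a)^[i] []).Sublist E := by
  cases i with
  | zero => simp
  | succ i => rw [Function.iterate_succ_apply']; exact List.filter_sublist

theorem iter_mono (E : List (Lit × Lit)) (a : Lit) (i : ℕ) :
    ((rstep E a)^[i] []).Sublist ((rstep E a)^[i + 1] []) := by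
  induction i with
  | zero => simp
  | succ i ih =>
    rw [Function.iterate_succ_apply', Function.iterate_succ_apply' (n := i + 1)]
    exact rstep_mono E a ih

theorem iter_fix (E : List (Lit × Lit)) (a : Lit) (i : ℕ) :
    rstep E a ((rstep E a)^[i] []) = (rstep E a)^[i] [] ∨ i < ((rstep E a)^[i + 1] []).length := by
  induction i with
  | zero =>
    by_cases h : rstep E a [] = []
    · exact Or.inl h
    · exact Or.inr (List.length_pos_of_ne_nil h)
  | succ i ih =>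
    rcases ih with ih | ih
    · left
      rw [Function.iterate_succ_apply', ih, ih]
    · have h := iter_mono E a (i + 1)
      by_cases hl : ((rstep E a)^[i + 1] []).length = ((rstep E a)^[i + 1 + 1] []).length
      · left
        rw [← Function.iterate_succ_apply' (rstep E a)]
        exact (h.eq_of_length hl).symm
      · right
        have := h.length_le
        omega

theorem reach_fix (E : List (Lit × Lit)) (a : Lit) : rstep E a (reach E a) = reach E a := by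
  rcases iter_fix E a E.length with h | h
  · exact h
  · have := (iter_sub E a (E.length + 1)).length_le
    omega

theorem reach_spec (E : List (Lit × Lit)) (a b : Lit) :
    (b = a ∨ ∃ g ∈ reach E a, g.2 = b) ↔ Relation.ReflTransGen (fun u v => (u, v) ∈ E) a b := by
  constructor
  · have key : ∀ i, ∀ g ∈ (rstep E a)^[i] [],
        Relation.ReflTransGen (fun u v => (u, v) ∈ E) a g.2 := by
      intro i
      induction i with
      | zero => simp
      | succ i ih =>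
        intro g hg
        rw [Function.iterate_succ_apply'] at hg
        simp only [rstep, List.mem_filter, decide_eq_true_eq] at hg
        rcases hg with ⟨hE, h | ⟨g', hg', h⟩⟩
        · exact Relation.ReflTransGen.single (h ▸ hE)
        · exact (ih g' hg').tail (h ▸ hE)
    rintro (rfl | ⟨g, hg, rfl⟩)
    · exact Relation.ReflTransGen.refl
    · exact key _ g hg
  · intro h
    induction h with
    | refl => exact Or.inl rfl
    | @tail b c _ hbc ih =>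
      refine Or.inr ⟨(b, c), ?_, rfl⟩
      rw [← reach_fix]
      simp only [rstep, List.mem_filter, decide_eq_true_eq]
      exact ⟨hbc, ih⟩

/-- The implications together with their contrapositives. -/
def symE (E : List (Lit × Lit)) : List (Lit × Lit) := E ++ E.map (fun e => (neg e.2, neg e.1))

/-- No literal reaches its negation and is reached from it. -/
def Sat2 (E : List (Lit × Lit)) : Prop :=
  ∀ e ∈ symE E, ¬ ((∃ g ∈ reach (symE E) e.1, g.2 = neg e.1) ∧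
    ∃ g ∈ reach (symE E) (neg e.1), g.2 = e.1)

theorem neg_ne (a : Lit) : neg a ≠ a := by
  intro h
  have := congrArg Prod.snd h
  simp [neg] at this

theorem sat2_iff (E : List (Lit × Lit)) :
    Sat2 E ↔ ∃ A : ℕ × ℕ → Bool, ∀ e ∈ E, A e.1.1 = e.1.2 → A e.2.1 = e.2.2 := by
  set R := Relation.ReflTransGen (fun u v => (u, v) ∈ symE E) with hR
  have hsym : ∀ u v, (u, v) ∈ symE E → (neg v, neg u) ∈ symE E := by
    intro u v h
    simp only [symE, List.mem_append, List.mem_map, Prod.mk.injEq] at h ⊢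
    rcases h with h | ⟨e, he, rfl, rfl⟩
    · exact Or.inr ⟨(u, v), h, rfl, rfl⟩
    · left; simpa using he
  have hc : ∀ u v, R u v → R (neg v) (neg u) := by
    intro u v h
    induction h with
    | refl => exact Relation.ReflTransGen.refl
    | tail _ hbc ih => exact Relation.ReflTransGen.head (hsym _ _ hbc) ih
  constructor
  · intro h
    have h1 : ∀ a, ¬ (R a (neg a) ∧ R (neg a) a) := by
      rintro a ⟨h1, h2⟩
      rcases h1.cases_head with h3 | ⟨c, h3, -⟩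
      · exact neg_ne a h3.symm
      refine h _ h3 ⟨?_, ?_⟩
      · exact ((reach_spec _ _ _).2 h1).resolve_left (neg_ne a)
      · exact ((reach_spec _ _ _).2 h2).resolve_left (neg_ne a).symm
    obtain ⟨S, hS⟩ := zorn_subset {S : Set Lit | (∀ a ∈ S, ∀ b, R a b → b ∈ S) ∧
        ∀ a ∈ S, neg a ∉ S} (by
      intro c hc' hch
      refine ⟨⋃₀ c, ⟨?_, ?_⟩, fun s hs => Set.subset_sUnion_of_mem hs⟩
      · rintro a ⟨s, hs, ha⟩ b hab
        exact ⟨s, hs, (hc' hs).1 a ha b hab⟩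
      · rintro a ⟨s, hs, ha⟩ ⟨t, ht, hb⟩
        rcases hch.total hs ht with h | h
        · exact (hc' ht).2 a (h ha) hb
        · exact (hc' hs).2 a ha (h hb))
    have h2 : ∀ a, ¬ R a (neg a) → neg a ∉ S → a ∈ S := by
      intro a ha hn
      have : S ∪ {b | R a b} ⊆ S := by
        refine hS.2 ⟨?_, ?_⟩ Set.subset_union_left
        · rintro u (hu | hu) v huv
          · exact Or.inl (hS.1.1 u hu v huv)
          · exact Or.inr (Relation.ReflTransGen.trans hu huv)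
        · rintro u (hu | hu) (hv | hv)
          · exact hS.1.2 u hu hv
          · exact hn (hS.1.1 u hu _ (by simpa using hc _ _ hv))
          · exact hn (hS.1.1 _ hv _ (hc _ _ hu))
          · exact ha (Relation.ReflTransGen.trans hu (by simpa using hc _ _ hv))
      exact this (Or.inr Relation.ReflTransGen.refl)
    have h3 : ∀ a, a ∈ S ∨ neg a ∈ S := by
      intro a
      by_contra hn
      rw [not_or] at hn
      by_cases ha : R a (neg a)
      · exact hn.2 (h2 _ (fun hb => h1 a ⟨ha, by simpa using hb⟩) (by simpa using hn.1))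
      · exact hn.1 (h2 a ha hn.2)
    classical
    have h4 : ∀ a : Lit, decide ((a.1, true) ∈ S) = a.2 ↔ a ∈ S := by
      rintro ⟨v, _ | _⟩
      · simp only [decide_eq_false_iff_not]
        exact ⟨fun hh => (h3 (v, true)).resolve_left hh, fun hh => hS.1.2 _ hh⟩
      · simp
    refine ⟨fun v => decide ((v, true) ∈ S), fun e he h => (h4 _).2 ?_⟩
    exact hS.1.1 _ ((h4 _).1 h) _
      (Relation.ReflTransGen.single (List.mem_append_left _ he))
  · rintro ⟨A, hA⟩ e - ⟨h1, h2⟩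
    have key : ∀ u v, R u v → A u.1 = u.2 → A v.1 = v.2 := by
      intro u v h hu
      induction h with
      | refl => exact hu
      | tail _ hbc ih =>
        simp only [symE, List.mem_append, List.mem_map, Prod.mk.injEq] at hbc
        rcases hbc with hbc | ⟨e, he, rfl, rfl⟩
        · exact hA _ hbc ih
        · have := hA e he
          simp only [neg] at ih ⊢
          revert this ih
          cases A e.1.1 <;> cases e.1.2 <;> cases A e.2.1 <;> cases e.2.2 <;> simp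
    have k1 := key _ _ ((reach_spec _ _ _).1 (Or.inr h1))
    have k2 := key _ _ ((reach_spec _ _ _).1 (Or.inr h2))
    simp only [neg] at k1 k2
    revert k1 k2
    cases A e.1.1 <;> cases e.1.2 <;> simp

variable {α : Type} [Enc α]

@[fun_prop] theorem neg_pt {a : α → Lit} (ha : PT a) : PT (fun x => neg (a x)) := by
  unfold neg; fun_prop

@[fun_prop] theorem rstep_pt {E G : α → List (Lit × Lit)} {a : α → Lit} (hE : PT E) (ha : PT a)
    (hG : PT G) : PT (fun x => rstep (E x) (a x) (G x)) := by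
  unfold rstep; fun_prop

@[fun_prop] theorem reach_pt {E : α → List (Lit × Lit)} {a : α → Lit} (hE : PT E) (ha : PT a) :
    PT (fun x => reach (E x) (a x)) := by
  unfold reach
  exact PT.iterate (f := fun x => rstep (E x) (a x)) (by fun_prop) (by fun_prop) (by fun_prop)
    (by fun_prop) (fun x => size (E x)) (by fun_prop)
    (fun x i _ => size_sublist (iter_sub _ _ _))

@[fun_prop] theorem sat2_pp {E : α → List (Lit × Lit)} (hE : PT E) : PP (fun x => Sat2 (E x)) := by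
  unfold Sat2 symE; fun_prop

end Pool.Agent.MP_514f48_lc

end

-- part MP_514f48_lc.Alg
section

/-!
The algorithm and its running time.
-/

namespace Pool.Agent.MP_514f48_lc

open Pool.Agent.Lib.Cx

/-- A table entry: a factor of the pattern, a range of positions and a range of values of the text. -/
abbrev Ent : Type := (ℕ × ℕ) × (ℕ × ℕ) × (ℕ × ℕ)

/-- A label: the name of a monotone chain and its direction. -/
abbrev Lab : Type := ℕ × ℕ × Bool

/-- Block starts, labels of text points, labels of pattern points. -/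
abbrev Cand : Type := List ℕ × List Lab × List Lab

/-- The points of the text in the box. -/
def ptsT (τ : List ℕ) (e : Ent) : List ℕ :=
  open Classical in (List.range τ.length).filter
    (fun t => decide (e.2.1.1 ≤ t ∧ t < e.2.1.2 ∧ e.2.2.1 ≤ vl τ t ∧ vl τ t < e.2.2.2))

/-- The points of the factor of the pattern. -/
def ptsP (π : List ℕ) (e : Ent) : List ℕ :=
  (List.range π.length).filter (fun x => decide (e.1.1 ≤ x ∧ x < e.1.2))

/-- Reading a label. -/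
def lb (L : List Lab) (x : ℕ) : Lab := L.getD x (0, 0, true)

/-- `s` is the last start at or before `a`. -/
def Blk (St : List ℕ) (s a : ℕ) : Prop := s ≤ a ∧ ∀ w ∈ St, w ≤ a → w ≤ s

/-- `u` is the end of the block that starts at `s`. -/
def Nxt (St : List ℕ) (j s u : ℕ) : Prop :=
  s < u ∧ u ≤ j ∧ (u = j ∨ u ∈ St) ∧ ∀ w ∈ St, s < w → u ≤ w

/-- The blocks are intervals and the chains are monotone. -/
def Valid (τ S St : List ℕ) (L : List Lab) : Prop :=
  (∀ s ∈ St, s ∈ S) ∧ (∀ a ∈ S, ∃ s ∈ St, s ≤ a) ∧ (∃ s ∈ St, ∃ t ∈ St, s < t) ∧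
    (∀ s ∈ St, ∀ t ∈ St, ∀ a ∈ S, ∀ b ∈ S, Blk St s a → Blk St t b → vl τ s < vl τ t →
      vl τ a < vl τ b) ∧
    ∀ s ∈ St, ∀ t ∈ St, s < t → lb L s = lb L t → lt' (lb L s).2.2 (vl τ s) (vl τ t)

/-- The literal saying that the value at the image of `x` is at least the value at `s` (`d` the
direction of the chain); with the direction negated it says at most. -/
def up (d : Bool) (x s : ℕ) : Lit := bif d then ((x, s), true) else ((x, s + 1), false)

/-- The implications of the 2-SAT instance. -/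
def Imp (π τ : List ℕ) (T : List Ent) (e : Ent) (c : Cand) (a b : Lit) : Prop :=
  a.1.1 ∈ ptsP π e ∧ b.1.1 ∈ ptsP π e ∧
  ((a.1.1 = b.1.1 ∧ a.2 = true ∧ b.2 = true ∧ a.1.2 = b.1.2 + 1) ∨
   (a.1.1 = b.1.1 ∧ a.2 = true ∧ b.2 = true ∧ b.1.2 = a.1.2 + 1 ∧
      ¬ (a.1.2 ∈ c.1 ∧ lb c.2.1 a.1.2 = lb c.2.2 a.1.1)) ∨
   (a.1.1 < b.1.1 ∧ a.2 = true ∧ b.2 = true ∧ a.1.2 = b.1.2) ∨
   (a.1.1 ≤ b.1.1 ∧ a.2 = true ∧ b.2 = true ∧ b.1.2 = a.1.2 + 1 ∧ a.1.2 ∈ c.1 ∧
      ∃ u < τ.length + 1, Nxt c.1 e.2.1.2 a.1.2 u ∧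
        ((a.1.1, b.1.1 + 1), (a.1.2, u), e.2.2) ∉ T) ∨
   (vl π a.1.1 < vl π b.1.1 ∧ ∃ s ∈ c.1, ∃ t ∈ c.1, lb c.2.1 s = lb c.2.2 a.1.1 ∧
      lb c.2.1 t = lb c.2.2 b.1.1 ∧ vl τ t < vl τ s ∧ a = up (lb c.2.1 s).2.2 a.1.1 s ∧
      b = neg (up (!(lb c.2.1 t).2.2) b.1.1 t)) ∨
   (a.1.1 = b.1.1 ∧ a.1.2 = 0 ∧ b.1.2 = 0 ∧ a.2 = false ∧ b.2 = true) ∨
   (a.1.1 = b.1.1 ∧ a.1.2 = τ.length ∧ b.1.2 = τ.length ∧ a.2 = true ∧ b.2 = false))

/-- All literals. -/
def lits (π τ : List ℕ) : List Lit :=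
  (List.range π.length ×ˢ List.range (τ.length + 1)) ×ˢ [true, false]

/-- The 2-SAT instance. -/
noncomputable def clauses (π τ : List ℕ) (T : List Ent) (e : Ent) (c : Cand) : List (Lit × Lit) :=
  open Classical in (lits π τ ×ˢ lits π τ).filter (fun ab => decide (Imp π τ T e c ab.1 ab.2))

/-- The three direction tables in use. -/
def dir3 (t : List (List Bool)) (o i j : ℕ) : Bool :=
  if o = 0 then true else if o = 1 then false else dirOf t i j

/-- The labels given by grid lines. -/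
def gridLab (t : List (List Bool)) (o : ℕ) (l Θ Θ' : List ℕ) : List Lab :=
  (List.range l.length).map (fun x =>
    (cnt Θ x, cnt Θ' (vl l x), dir3 t o (cnt Θ x) (cnt Θ' (vl l x))))

/-- The finest blocks for a labelling. -/
noncomputable def gridSt (τ S : List ℕ) (L : List Lab) : List ℕ :=
  open Classical in S.filter (fun t => decide (¬ ∃ u ∈ S, ∃ v ∈ S, u < t ∧ t ≤ v ∧
    lb L u = lb L v ∧ lt' (lb L u).2.2 (vl τ v) (vl τ u)))

/-- The starts of the maximal proper intervals. -/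
noncomputable def simSt (τ S : List ℕ) : List ℕ :=
  open Classical in S.filter (fun t => decide (¬ ∃ u ∈ S, u < t ∧ Sim S τ u t))

/-- Left-to-right extrema get the label `1`. -/
noncomputable def avLab (τ S : List ℕ) (d : Bool) : List Lab :=
  open Classical in (List.range τ.length).map (fun t =>
    (if ∃ s ∈ S, s < t ∧ lt' d (vl τ t) (vl τ s) then 0 else 1, 0, d))

/-- The forced labels of the pattern. -/
noncomputable def avLab' (π I : List ℕ) (d : Bool) (o : ℕ) : List Lab :=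
  open Classical in (List.range π.length).map (fun x =>
    (if o < 2 then o else if ∃ y ∈ I, x < y ∧ lt' d (vl π y) (vl π x) ∧ ¬ Sim I π x y then 1 else 0,
      0, d))

/-- The candidates. -/
noncomputable def cands (K : ℕ) (t : List (List Bool)) (π τ : List ℕ) (e : Ent) : List Cand :=
  ((List.range 3 ×ˢ (tuples (List.range (τ.length + 1)) K ×ˢ tuples (List.range (τ.length + 1)) K)
      ×ˢ (tuples (List.range (π.length + 1)) K ×ˢ tuples (List.range (π.length + 1)) K)).map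
    (fun z => (gridSt τ (ptsT τ e) (gridLab t z.1 τ z.2.1.1 z.2.1.2),
      gridLab t z.1 τ z.2.1.1 z.2.1.2, gridLab t z.1 π z.2.2.1 z.2.2.2))) ++
  ([true, false] ×ˢ List.range 3).map
    (fun z => (simSt τ (ptsT τ e), avLab τ (ptsT τ e) z.1, avLab' π (ptsP π e) z.1 z.2))

/-- The rule that fills the table. -/
def Rule (K : ℕ) (t : List (List Bool)) (π τ : List ℕ) (T : List Ent) (e : Ent) : Prop :=
  (∀ x ∈ ptsP π e, ∃ s ∈ ptsT τ e, ∀ y ∈ ptsP π e, y = x) ∨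
  (∃ i < π.length + 1, ∃ j < τ.length + 1, ∃ v < τ.length + 1,
    e.2.1.1 ≤ j ∧ j ≤ e.2.1.2 ∧ e.2.2.1 ≤ v ∧ v ≤ e.2.2.2 ∧
    ((Cut (ptsP π e) π true i ∧ ((e.1.1, i), (e.2.1.1, j), (e.2.2.1, v)) ∈ T ∧
        ((i, e.1.2), (j, e.2.1.2), (v, e.2.2.2)) ∈ T) ∨
     (Cut (ptsP π e) π false i ∧ ((e.1.1, i), (e.2.1.1, j), (v, e.2.2.2)) ∈ T ∧
        ((i, e.1.2), (j, e.2.1.2), (e.2.2.1, v)) ∈ T))) ∨
  ∃ c ∈ cands K t π τ e, Valid τ (ptsT τ e) c.1 c.2.1 ∧ Sat2 (clauses π τ T e c)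

/-- All entries. -/
def ents (π τ : List ℕ) : List Ent :=
  (List.range (π.length + 1) ×ˢ List.range (π.length + 1)) ×ˢ
    (List.range (τ.length + 1) ×ˢ List.range (τ.length + 1)) ×ˢ
      (List.range (τ.length + 1) ×ˢ List.range (τ.length + 1))

/-- One round. -/
noncomputable def step (K : ℕ) (t : List (List Bool)) (π τ : List ℕ) (T : List Ent) : List Ent :=
  open Classical in (ents π τ).filter (fun e => decide (Rule K t π τ T e))

/-- The algorithm. -/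
noncomputable def alg (K : ℕ) (t : List (List Bool)) (z : List ℕ × List ℕ) : Bool :=
  decide (((0, z.1.length), (0, z.2.length), (0, z.2.length)) ∈
    (step K t z.1 z.2)^[z.1.length + z.2.length + 1] [])

section pt

variable {α : Type} [Enc α] {π τ S St l Θ Θ' : α → List ℕ} {a b x y : α → ℕ} {e : α → Ent}
  {T : α → List Ent} {L : α → List Lab} {d : α → Bool} {c : α → Cand}

@[fun_prop] theorem vl_pt (h1 : PT l) (h2 : PT x) : PT (fun z => vl (l z) (x z)) := by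
  unfold vl; fun_prop

@[fun_prop] theorem lt'_pp (h1 : PT d) (h2 : PT a) (h3 : PT b) :
    PP (fun z => lt' (d z) (a z) (b z)) := by
  unfold lt'; fun_prop

@[fun_prop] theorem cnt_pt (h1 : PT Θ) (h2 : PT x) : PT (fun z => cnt (Θ z) (x z)) := by
  unfold cnt; fun_prop

@[fun_prop] theorem tuples_pt (K : ℕ) (h1 : PT l) : PT (fun z => tuples (l z) K) := by
  induction K with
  | zero => exact PT.const _
  | succ K ih =>
    exact PT.flatMap (PT.map (f := fun (p : α × ℕ) t => p.2 :: t) (by fun_prop)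
      (ih.comp' (f := fun p : α × ℕ => p.1) (by fun_prop))) h1

@[fun_prop] theorem ivl_pp (h1 : PT S) (h2 : PT l) (h3 : PT a) (h4 : PT b) :
    PP (fun z => Ivl (S z) (l z) (a z) (b z)) := by
  unfold Ivl; fun_prop

@[fun_prop] theorem sim_pp (h1 : PT S) (h2 : PT l) (h3 : PT a) (h4 : PT b) :
    PP (fun z => Sim (S z) (l z) (a z) (b z)) := by
  unfold Sim; fun_prop

@[fun_prop] theorem cut_pp (h1 : PT S) (h2 : PT l) (h3 : PT d) (h4 : PT b) :
    PP (fun z => Cut (S z) (l z) (d z) (b z)) := by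
  unfold Cut; fun_prop

@[fun_prop] theorem ptsT_pt (h1 : PT τ) (h2 : PT e) : PT (fun z => ptsT (τ z) (e z)) := by
  unfold ptsT; fun_prop

@[fun_prop] theorem ptsP_pt (h1 : PT π) (h2 : PT e) : PT (fun z => ptsP (π z) (e z)) := by
  unfold ptsP; fun_prop

@[fun_prop] theorem lb_pt (h1 : PT L) (h2 : PT x) : PT (fun z => lb (L z) (x z)) := by
  unfold lb; fun_prop

@[fun_prop] theorem blk_pp (h1 : PT St) (h2 : PT a) (h3 : PT b) :
    PP (fun z => Blk (St z) (a z) (b z)) := by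
  unfold Blk; fun_prop

@[fun_prop] theorem nxt_pp (h1 : PT St) (h2 : PT x) (h3 : PT a) (h4 : PT b) :
    PP (fun z => Nxt (St z) (x z) (a z) (b z)) := by
  unfold Nxt; fun_prop

@[fun_prop] theorem valid_pp (h1 : PT τ) (h2 : PT S) (h3 : PT St) (h4 : PT L) :
    PP (fun z => Valid (τ z) (S z) (St z) (L z)) := by
  unfold Valid; fun_prop

@[fun_prop] theorem up_pt (h1 : PT d) (h2 : PT a) (h3 : PT b) :
    PT (fun z => up (d z) (a z) (b z)) := by
  unfold up; fun_prop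

@[fun_prop] theorem imp_pp {u v : α → Lit} (h1 : PT π) (h2 : PT τ) (h3 : PT T) (h4 : PT e)
    (h5 : PT c) (h6 : PT u) (h7 : PT v) :
    PP (fun z => Imp (π z) (τ z) (T z) (e z) (c z) (u z) (v z)) := by
  unfold Imp; fun_prop

@[fun_prop] theorem lits_pt (h1 : PT π) (h2 : PT τ) : PT (fun z => lits (π z) (τ z)) := by
  unfold lits; fun_prop

@[fun_prop] theorem clauses_pt (h1 : PT π) (h2 : PT τ) (h3 : PT T) (h4 : PT e) (h5 : PT c) :
    PT (fun z => clauses (π z) (τ z) (T z) (e z) (c z)) := by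
  unfold clauses; fun_prop

@[fun_prop] theorem dir3_pt (t : List (List Bool)) (h1 : PT x) (h2 : PT a) (h3 : PT b) :
    PT (fun z => dir3 t (x z) (a z) (b z)) := by
  unfold dir3 dirOf; fun_prop

@[fun_prop] theorem gridLab_pt (t : List (List Bool)) (h1 : PT x) (h2 : PT l) (h3 : PT Θ)
    (h4 : PT Θ') : PT (fun z => gridLab t (x z) (l z) (Θ z) (Θ' z)) := by
  unfold gridLab; fun_prop

@[fun_prop] theorem gridSt_pt (h1 : PT τ) (h2 : PT S) (h3 : PT L) :
    PT (fun z => gridSt (τ z) (S z) (L z)) := by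
  unfold gridSt; fun_prop

@[fun_prop] theorem simSt_pt (h1 : PT τ) (h2 : PT S) : PT (fun z => simSt (τ z) (S z)) := by
  unfold simSt; fun_prop

@[fun_prop] theorem avLab_pt (h1 : PT τ) (h2 : PT S) (h3 : PT d) :
    PT (fun z => avLab (τ z) (S z) (d z)) := by
  unfold avLab; fun_prop

@[fun_prop] theorem avLab'_pt (h1 : PT π) (h2 : PT S) (h3 : PT d) (h4 : PT x) :
    PT (fun z => avLab' (π z) (S z) (d z) (x z)) := by
  unfold avLab'; fun_prop

@[fun_prop] theorem cands_pt (K : ℕ) (t : List (List Bool)) (h1 : PT π) (h2 : PT τ) (h3 : PT e) :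
    PT (fun z => cands K t (π z) (τ z) (e z)) := by
  unfold cands; fun_prop

@[fun_prop] theorem rule_pp (K : ℕ) (t : List (List Bool)) (h1 : PT π) (h2 : PT τ) (h3 : PT T)
    (h4 : PT e) : PP (fun z => Rule K t (π z) (τ z) (T z) (e z)) := by
  unfold Rule; fun_prop

@[fun_prop] theorem ents_pt (h1 : PT π) (h2 : PT τ) : PT (fun z => ents (π z) (τ z)) := by
  unfold ents; fun_prop

@[fun_prop] theorem step_pt (K : ℕ) (t : List (List Bool)) (h1 : PT π) (h2 : PT τ) (h3 : PT T) :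
    PT (fun z => step K t (π z) (τ z) (T z)) := by
  unfold step; fun_prop

theorem alg_pt (K : ℕ) (t : List (List Bool)) : PT (alg K t) := by
  have : PT (fun z : List ℕ × List ℕ => (step K t z.1 z.2)^[z.1.length + z.2.length + 1] []) := by
    refine PT.iterate (f := fun z : List ℕ × List ℕ => step K t z.1 z.2) (by fun_prop) (by fun_prop)
      (by fun_prop) (by fun_prop) (fun z => size (ents z.1 z.2)) (by fun_prop) fun z i _ => ?_
    cases i with
    | zero => simp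
    | succ i => rw [Function.iterate_succ_apply']; exact size_sublist List.filter_sublist
  unfold alg; fun_prop

end pt

end Pool.Agent.MP_514f48_lc

end

-- part MP_514f48_lc.Core
section

/-!
The block rule: embeddings, maps to block starts and the 2-SAT instance.
-/

namespace Pool.Agent.MP_514f48_lc

variable {π τ : List ℕ} {T : List Ent} {e : Ent} {c : Cand}

theorem mem_ptsP {x : ℕ} : x ∈ ptsP π e ↔ x < π.length ∧ e.1.1 ≤ x ∧ x < e.1.2 := by
  simp [ptsP]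

theorem mem_ptsT {t : ℕ} : t ∈ ptsT τ e ↔ t < τ.length ∧
    e.2.1.1 ≤ t ∧ t < e.2.1.2 ∧ e.2.2.1 ≤ vl τ t ∧ vl τ t < e.2.2.2 := by
  simp only [ptsT, Bool.decide_and, List.mem_filter, List.mem_range, Bool.and_eq_true, decide_eq_true_eq]

theorem mem_ents : e ∈ ents π τ ↔ (e.1.1 ≤ π.length ∧ e.1.2 ≤ π.length) ∧
    (e.2.1.1 ≤ τ.length ∧ e.2.1.2 ≤ τ.length) ∧ e.2.2.1 ≤ τ.length ∧ e.2.2.2 ≤ τ.length := by
  obtain ⟨⟨a, b⟩, ⟨c, d⟩, u, v⟩ := e
  simp only [ents, List.mem_product, List.mem_range, Order.lt_add_one_iff]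

/-- `f` embeds the factor into the box. -/
def IsEmb (π τ : List ℕ) (e : Ent) (f : ℕ → ℕ) : Prop :=
  (∀ x ∈ ptsP π e, f x ∈ ptsT τ e) ∧ ∀ x ∈ ptsP π e, ∀ y ∈ ptsP π e,
    (x < y → f x < f y) ∧ (vl π x < vl π y → vl τ (f x) < vl τ (f y))

/-- The conditions on the map from the pattern to the block starts. -/
def GOK (π τ : List ℕ) (T : List Ent) (e : Ent) (c : Cand) (g : ℕ → ℕ) : Prop :=
  (∀ x ∈ ptsP π e, g x ∈ c.1 ∧ lb c.2.1 (g x) = lb c.2.2 x) ∧
  ∀ x ∈ ptsP π e, ∀ y ∈ ptsP π e, (x < y → g x ≤ g y) ∧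
    (vl π x < vl π y → vl τ (g x) ≤ vl τ (g y)) ∧
    (x ≤ y → g x = g y → ∀ u < τ.length + 1, Nxt c.1 e.2.1.2 (g x) u →
      ((x, y + 1), (g x, u), e.2.2) ∈ T)

theorem Valid.chain {S St : List ℕ} {L : List Lab} (h : Valid τ S St L) {s t : ℕ} (hs : s ∈ St)
    (ht : t ∈ St) (e : lb L s = lb L t) (hst : s ≤ t) :
    ((lb L s).2.2 = true → vl τ s ≤ vl τ t) ∧ ((lb L s).2.2 = false → vl τ t ≤ vl τ s) := by
  rcases hst.eq_or_lt with rfl | hst
  · simp
  · have := h.2.2.2.2 s hs t ht hst e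
    constructor <;> intro hd <;> simp only [lt', hd] at this <;> simp at this <;> omega

theorem sat_of_gok (hV : Valid τ (ptsT τ e) c.1 c.2.1) {g : ℕ → ℕ} (h : GOK π τ T e c g) :
    Sat2 (clauses π τ T e c) := by
  rw [sat2_iff]
  refine ⟨fun v => decide (v.2 ≤ g v.1), ?_⟩
  rintro ⟨⟨⟨x, s⟩, σ⟩, ⟨⟨y, t⟩, ρ⟩⟩ he
  simp only [clauses, List.mem_filter, decide_eq_true_eq] at he
  obtain ⟨hx, hy, he⟩ := he.2
  simp only at hx hy he ⊢
  obtain ⟨k1, k2⟩ := h.1 x hx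
  obtain ⟨k3, k4⟩ := h.1 y hy
  obtain ⟨k5, k6, k7⟩ := h.2 x hx y hy
  rcases he with ⟨rfl, rfl, rfl, rfl⟩ | ⟨rfl, rfl, rfl, rfl, h1⟩ | ⟨h1, rfl, rfl, rfl⟩ |
    ⟨h1, rfl, rfl, rfl, h2, u, h3, h4, h5⟩ | ⟨h1, s', hs, t', ht, h2, h3, h4, h5, h6⟩ |
    ⟨rfl, rfl, rfl, rfl, rfl⟩ | ⟨rfl, rfl, rfl, rfl, rfl⟩
  · simp only [decide_eq_true_eq]; omega
  · simp only [decide_eq_true_eq]
    intro h2
    by_contra h3
    obtain rfl : s = g x := by omega
    exact h1 ⟨k1, k2⟩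
  · simp only [decide_eq_true_eq]
    have := k5 h1
    omega
  · simp only [decide_eq_true_eq]
    intro h6
    by_contra h7
    have : g x ≤ g y := by
      rcases h1.eq_or_lt with rfl | h1
      · exact le_rfl
      · exact k5 h1
    obtain rfl : s = g x := by omega
    exact h5 (k7 h1 (by omega) u h3 h4)
  · have l1 := hV.chain hs k1 (h2.trans k2.symm)
    have l2 := hV.chain k1 hs (k2.trans h2.symm)
    have l3 := hV.chain ht k3 (h3.trans k4.symm)
    have l4 := hV.chain k3 ht (k4.trans h3.symm)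
    have l5 := k6 h1
    rw [k2, ← h2] at l2
    rw [k4, ← h3] at l4
    revert l1 l2 l3 l4 h5 h6
    cases (lb c.2.1 s').2.2 <;> cases (lb c.2.1 t').2.2 <;>
      simp only [up, neg, cond_true, cond_false, Bool.not_true, Bool.not_false, Prod.mk.injEq,
        forall_true_left, Bool.true_eq_false, Bool.false_eq_true, false_imp_iff, and_true,
        true_and] <;>
      rintro ⟨⟨-, rfl⟩, rfl⟩ ⟨⟨-, rfl⟩, rfl⟩ l1 l2 l3 l4 <;>
      simp only [decide_eq_true_eq, decide_eq_false_iff_not] <;> omega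
  · simp
  · have := (mem_ptsT.1 (hV.1 _ k1)).1
    simp only [decide_eq_true_eq, decide_eq_false_iff_not]
    omega

theorem gok_of_sat (hV : Valid τ (ptsT τ e) c.1 c.2.1) (h : Sat2 (clauses π τ T e c)) :
    ∃ g, GOK π τ T e c g := by
  obtain ⟨A, hA⟩ := (sat2_iff _).1 h
  have hA' : ∀ x s σ y t ρ, s ≤ τ.length → t ≤ τ.length →
      Imp π τ T e c ((x, s), σ) ((y, t), ρ) → A (x, s) = σ → A (y, t) = ρ := by
    intro x s σ y t ρ hs ht h
    refine hA (((x, s), σ), ((y, t), ρ)) ?_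
    have h1 := (mem_ptsP.1 h.1).1
    have h2 := (mem_ptsP.1 h.2.1).1
    simp only [clauses, List.mem_filter, decide_eq_true_eq]
    refine ⟨?_, h⟩
    cases σ <;> cases ρ <;> simp_all [lits]
  have hlt : ∀ s ∈ c.1, s < τ.length := fun s hs => (mem_ptsT.1 (hV.1 _ hs)).1
  have hg : ∀ x ∈ ptsP π e, ∃ γ < τ.length, ∀ t ≤ τ.length, (A (x, t) = true ↔ t ≤ γ) := by
    intro x hx
    have h0 : A (x, 0) = true := by
      by_contra h0
      exact h0 (hA' x 0 false x 0 true (by omega) (by omega) ⟨hx, hx, by simp only [Bool.false_eq_true, zero_add, zero_ne_one, and_false, and_self, not_and, false_and, lt_self_iff_false, and_true, Std.le_refl, Order.lt_add_one_iff, Bool.true_eq_false, or_false, or_true]⟩ (by simpa using h0))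
    have hn : A (x, τ.length) = false := by
      by_contra hn
      exact hn (hA' x _ true x _ false le_rfl le_rfl ⟨hx, hx, by simp only [Bool.false_eq_true, Nat.left_eq_add, one_ne_zero, and_self, and_false, not_and, false_and, lt_self_iff_false, and_true, Std.le_refl, Order.lt_add_one_iff, List.length_eq_zero_iff, Bool.true_eq_false, or_true]⟩ (by simpa using hn))
    have h1 : A (x, Nat.findGreatest (fun t => A (x, t) = true) τ.length) = true :=
      Nat.findGreatest_spec (P := fun t => A (x, t) = true) (Nat.zero_le _) h0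
    have h2 := Nat.findGreatest_le (P := fun t => A (x, t) = true) τ.length
    refine ⟨_, lt_of_le_of_ne h2 fun h => by simp [h, hn] at h1, fun t ht =>
      ⟨Nat.le_findGreatest (P := fun t => A (x, t) = true) ht, fun h => ?_⟩⟩
    refine Nat.decreasingInduction' (P := fun t => A (x, t) = true) (fun k hk _ ih => ?_) h h1
    exact hA' x (k + 1) true x k true (by omega) (by omega) ⟨hx, hx, by simp only [Nat.add_left_cancel_iff, and_self, not_and, true_and, lt_self_iff_false, Nat.add_eq_left, one_ne_zero, and_false, Std.le_refl, Order.lt_add_one_iff, false_and, Nat.add_eq_zero_iff, Bool.true_eq_false, and_true, or_self, or_false, false_or, true_or]⟩ ih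
  choose! g g1 g2 using hg
  have k1 : ∀ x ∈ ptsP π e, g x ∈ c.1 ∧ lb c.2.1 (g x) = lb c.2.2 x := fun x hx => by
    by_contra hn
    have l1 := g1 x hx
    have := (g2 x hx _ l1).1 (hA' x (g x) true x (g x + 1) true l1.le l1
      ⟨hx, hx, Or.inr (Or.inl ⟨rfl, rfl, rfl, rfl, hn⟩)⟩ ((g2 x hx _ l1.le).2 le_rfl))
    omega
  refine ⟨g, k1, fun x hx y hy => ?_⟩
  have l1 := g1 x hx
  have l2 := g1 y hy
  refine ⟨fun h => ?_, fun h => ?_, fun h h' u hu hN => ?_⟩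
  · exact (g2 y hy _ l1.le).1 (hA' x (g x) true y (g x) true l1.le l1.le
      ⟨hx, hy, Or.inr (Or.inr (Or.inl ⟨h, rfl, rfl, rfl⟩))⟩ ((g2 x hx _ l1.le).2 le_rfl))
  · by_contra hn
    have m1 := (g2 x hx _ l1.le).2 le_rfl
    have m2 := (g2 y hy _ l2.le).2 le_rfl
    have m3 : A (x, g x + 1) = false := by simpa using (g2 x hx _ l1).not.2 (by omega)
    have m4 : A (y, g y + 1) = false := by simpa using (g2 y hy _ l2).not.2 (by omega)
    have key : ∀ s σ t ρ, s ≤ τ.length → t ≤ τ.length →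
        ((x, s), σ) = up (lb c.2.1 (g x)).2.2 x (g x) →
        ((y, t), ρ) = neg (up (!(lb c.2.1 (g y)).2.2) y (g y)) → A (x, s) = σ → A (y, t) = ρ :=
      fun s σ t ρ hs ht e1 e2 => hA' x s σ y t ρ hs ht ⟨hx, hy, Or.inr (Or.inr (Or.inr (Or.inr
        (Or.inl ⟨h, g x, (k1 x hx).1, g y, (k1 y hy).1, (k1 x hx).2, (k1 y hy).2, by omega,
          e1, e2⟩))))⟩
    revert key
    cases (lb c.2.1 (g x)).2.2 <;> cases (lb c.2.1 (g y)).2.2 <;> intro key
    · simpa [m2, up] using key _ _ _ _ l1 l2.le rfl rfl m3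
    · simpa [m4, up] using key _ _ _ _ l1 l2 rfl rfl m3
    · simpa [m2, up] using key _ _ _ _ l1.le l2.le rfl rfl m1
    · simpa [m4, up] using key _ _ _ _ l1.le l2 rfl rfl m1
  · by_contra hn
    have := (g2 y hy _ l1).1 (hA' x (g x) true y (g x + 1) true l1.le l1
      ⟨hx, hy, Or.inr (Or.inr (Or.inr (Or.inl ⟨h, rfl, rfl, rfl, (k1 x hx).1, u, hu, hN, hn⟩)))⟩
      ((g2 x hx _ l1.le).2 le_rfl))
    omega

theorem exists_min (P : ℕ → Prop) (h : ℕ → ℕ) (hP : ∃ y, P y) :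
    ∃ y, P y ∧ ∀ z, P z → h y ≤ h z := by
  classical
  have ex : ∃ n, ∃ y, P y ∧ h y = n := hP.elim fun y hy => ⟨_, y, hy, rfl⟩
  obtain ⟨y, hy, e⟩ := Nat.find_spec ex
  exact ⟨y, hy, fun z hz => e ▸ Nat.find_min' ex ⟨z, hz, rfl⟩⟩

theorem emb_of_gok (hτ : Good τ) (he : e.2.1.2 ≤ τ.length) (hT : ∀ e' ∈ T, ∃ f, IsEmb π τ e' f)
    (hV : Valid τ (ptsT τ e) c.1 c.2.1) {g : ℕ → ℕ} (h : GOK π τ T e c g) :
    ∃ f, IsEmb π τ e f := by
  have key : ∀ s, ∃ F : ℕ → ℕ, ∀ x ∈ ptsP π e, g x = s → F x ∈ ptsT τ e ∧ Blk c.1 s (F x) ∧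
      ∀ y ∈ ptsP π e, g y = s →
        (x < y → F x < F y) ∧ (vl π x < vl π y → vl τ (F x) < vl τ (F y)) := by
    intro s
    by_cases hs : ∃ x, x ∈ ptsP π e ∧ g x = s
    swap
    · exact ⟨id, fun x hx e => absurd ⟨x, hx, e⟩ hs⟩
    obtain ⟨x0, ⟨hx0, rfl⟩, m1⟩ := exists_min _ id hs
    obtain ⟨y0, ⟨hy0, e0⟩, m2⟩ := exists_min _ (fun y => π.length - y) hs
    have hs' := mem_ptsT.1 (hV.1 _ (h.1 x0 hx0).1)
    obtain ⟨u, ⟨u1, u2⟩, m3⟩ := exists_min (fun u => g x0 < u ∧ (u = e.2.1.2 ∨ u ∈ c.1)) id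
      ⟨_, hs'.2.2.1, Or.inl rfl⟩
    have u3 : u ≤ e.2.1.2 := m3 _ ⟨hs'.2.2.1, Or.inl rfl⟩
    have u4 : ∀ w ∈ c.1, g x0 < w → u ≤ w := fun w hw h => m3 w ⟨h, Or.inr hw⟩
    obtain ⟨F, F1, F2⟩ := hT _ ((h.2 x0 hx0 y0 hy0).2.2 (m1 y0 ⟨hy0, e0⟩) e0.symm u (by omega)
      ⟨u1, u3, u2, u4⟩)
    have k : ∀ x ∈ ptsP π e, g x = g x0 → x ∈ ptsP π ((x0, y0 + 1), (g x0, u), e.2.2) := by
      intro x hx e1
      have l1 : x0 ≤ x := m1 x ⟨hx, e1⟩
      have l2 := m2 x ⟨hx, e1⟩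
      have l3 := mem_ptsP.1 hx
      have l4 := mem_ptsP.1 hy0
      exact mem_ptsP.2 ⟨l3.1, l1, by simp only at l2 ⊢; omega⟩
    refine ⟨F, fun x hx e1 => ?_⟩
    have l1 := mem_ptsT.1 (F1 x (k x hx e1))
    simp only at l1
    refine ⟨mem_ptsT.2 ⟨l1.1, by omega, by omega, l1.2.2.2⟩, ⟨l1.2.1, fun w hw h => ?_⟩,
      fun y hy e2 => F2 x (k x hx e1) y (k y hy e2)⟩
    by_contra hn
    have := u4 w hw (by omega)
    omega
  choose F hF using key
  refine ⟨fun x => F (g x) x, fun x hx => (hF _ x hx rfl).1, fun x hx y hy => ?_⟩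
  obtain ⟨a1, a2, a3⟩ := hF _ x hx rfl
  obtain ⟨b1, b2, -⟩ := hF _ y hy rfl
  by_cases e1 : g y = g x
  · simp only [e1]
    exact a3 y hy e1
  obtain ⟨k1, k2, -⟩ := h.2 x hx y hy
  have s1 := (h.1 x hx).1
  have s2 := (h.1 y hy).1
  refine ⟨fun hxy => ?_, fun hxy => ?_⟩
  · have l1 := k1 hxy
    have l2 := a2.2 _ s2
    have l3 := b2.1
    simp only
    omega
  · refine hV.2.2.2.1 _ s1 _ s2 _ a1 _ b1 a2 b2 (lt_of_le_of_ne (k2 hxy) fun e2 => e1 ?_)
    exact ((hτ _ (mem_ptsT.1 (hV.1 _ s1)).1).2 _ (mem_ptsT.1 (hV.1 _ s2)).1 e2).symm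

theorem Valid.exists_blk {S St : List ℕ} {L : List Lab} (hV : Valid τ S St L) {a : ℕ} (ha : a ∈ S) :
    ∃ s ∈ St, Blk St s a := by
  obtain ⟨s, ⟨h1, h2⟩, h3⟩ := exists_min (fun s => s ∈ St ∧ s ≤ a) (fun s => a - s)
    (hV.2.1 a ha)
  exact ⟨s, h1, h2, fun w hw h => by have := h3 w ⟨hw, h⟩; omega⟩

theorem Valid.g_mono {S St : List ℕ} {L : List Lab} (hV : Valid τ S St L) {s t a b : ℕ}
    (hs : s ∈ St) (ht : t ∈ St) (ha : a ∈ S) (hb : b ∈ S) (h1 : Blk St s a) (h2 : Blk St t b) :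
    (a ≤ b → s ≤ t) ∧ (vl τ a < vl τ b → vl τ s ≤ vl τ t) :=
  ⟨fun h => h2.2 s hs (h1.1.trans h), fun h => not_lt.1 fun hn =>
    lt_asymm h (hV.2.2.2.1 _ ht _ hs _ hb _ ha h2 h1 hn)⟩

/-- The measure of an entry. -/
def meas (e : Ent) : ℕ := (e.1.2 - e.1.1) + (e.2.1.2 - e.2.1.1)

theorem gok_of_emb (he : e ∈ ents π τ)
    (hT : ∀ e' ∈ ents π τ, meas e' < meas e → (∃ f, IsEmb π τ e' f) → e' ∈ T)
    (hV : Valid τ (ptsT τ e) c.1 c.2.1) {f : ℕ → ℕ} (hf : IsEmb π τ e f)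
    (hl : ∀ x ∈ ptsP π e, ∀ s ∈ c.1, Blk c.1 s (f x) → lb c.2.1 s = lb c.2.2 x) :
    ∃ g, GOK π τ T e c g := by
  have : ∀ x ∈ ptsP π e, ∃ s ∈ c.1, Blk c.1 s (f x) := fun x hx => hV.exists_blk (hf.1 x hx)
  choose! g g1 g2 using this
  refine ⟨g, fun x hx => ⟨g1 x hx, hl x hx _ (g1 x hx) (g2 x hx)⟩, fun x hx y hy => ?_⟩
  have k := hV.g_mono (g1 x hx) (g1 y hy) (hf.1 x hx) (hf.1 y hy) (g2 x hx) (g2 y hy)
  refine ⟨fun h => k.1 ((hf.2 x hx y hy).1 h).le, fun h => k.2 ((hf.2 x hx y hy).2 h),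
    fun h e1 u hu hN => ?_⟩
  have l1 := mem_ptsP.1 hx
  have l2 := mem_ptsP.1 hy
  have l3 := mem_ptsT.1 (hV.1 _ (g1 x hx))
  have l4 := mem_ents.1 he
  obtain ⟨n1, n2, n3, n4⟩ := hN
  have m : ∀ z ∈ ptsP π ((x, y + 1), (g x, u), e.2.2), z ∈ ptsP π e := fun z hz => by
    have := mem_ptsP.1 hz
    simp only at this
    exact mem_ptsP.2 ⟨this.1, by omega, by omega⟩
  refine hT _ (mem_ents.2 ⟨⟨l1.1.le, l2.1⟩, ⟨l3.1.le, by simp only; omega⟩, l4.2.2⟩) ?_
    ⟨f, fun z hz => ?_, fun z hz w hw => hf.2 z (m z hz) w (m w hw)⟩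
  · obtain ⟨s, hs, t, ht, hst⟩ := hV.2.2.1
    have l5 := mem_ptsT.1 (hV.1 _ hs)
    have l6 := mem_ptsT.1 (hV.1 _ ht)
    have l7 := n4 t ht
    simp only [meas]
    omega
  · have l5 := mem_ptsP.1 hz
    have l6 := mem_ptsT.1 (hf.1 z (m z hz))
    have l7 := mem_ptsT.1 (hf.1 y hy)
    simp only at l5
    have l8 : f x ≤ f z := by
      rcases l5.2.1.eq_or_lt with rfl | h
      · exact le_rfl
      · exact ((hf.2 x hx z (m z hz)).1 h).le
    have l9 : f z ≤ f y := by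
      rcases (Nat.le_of_lt_succ l5.2.2).eq_or_lt with rfl | h
      · exact le_rfl
      · exact ((hf.2 z (m z hz) y hy).1 h).le
    have l10 := (g2 x hx).1
    refine mem_ptsT.2 ⟨l6.1, by simp only; omega, ?_, l6.2.2.2⟩
    rcases n3 with n3 | n3
    · simp only; omega
    · have := (g2 y hy).2 u n3
      simp only; omega

end Pool.Agent.MP_514f48_lc

end

-- part MP_514f48_lc.Main
section

/-!
The candidates suffice; correctness of the algorithm.
-/

namespace Pool.Agent.MP_514f48_lc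

variable {π τ : List ℕ} {T : List Ent} {e : Ent} {K : ℕ} {t : List (List Bool)}

theorem lb_map {n x : ℕ} (f : ℕ → Lab) (h : x < n) : lb ((List.range n).map f) x = f x := by
  simp [lb, List.getD_eq_getElem?_getD, h]

theorem inj_ptsT (hτ : Good τ) : ∀ x ∈ ptsT τ e, ∀ y ∈ ptsT τ e, vl τ x = vl τ y → x = y :=
  fun _ hx _ hy => (hτ _ (mem_ptsT.1 hx).1).2 _ (mem_ptsT.1 hy).1

theorem inj_ptsP (hπ : Good π) : ∀ x ∈ ptsP π e, ∀ y ∈ ptsP π e, vl π x = vl π y → x = y :=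
  fun _ hx _ hy => (hπ _ (mem_ptsP.1 hx).1).2 _ (mem_ptsP.1 hy).1

theorem grid_valid {S : List ℕ} {L : List Lab} {B : ℕ → ℕ}
    (hinj : ∀ x ∈ S, ∀ y ∈ S, vl τ x = vl τ y → x = y) (hB : Blocks {x | x ∈ S} (vl τ) B)
    (h1 : ∀ a ∈ S, ∀ b ∈ S, B a = B b → lb L a = lb L b)
    (h2 : ∀ a ∈ S, ∀ b ∈ S, a < b → B a ≠ B b → lb L a = lb L b →
      lt' (lb L a).2.2 (vl τ a) (vl τ b)) :
    Valid τ S (gridSt τ S L) L ∧
      ∀ s ∈ gridSt τ S L, ∀ a ∈ S, Blk (gridSt τ S L) s a → lb L s = lb L a := by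
  have hm : ∀ s, s ∈ gridSt τ S L ↔ s ∈ S ∧ ∀ u ∈ S, ∀ v ∈ S, u < s → s ≤ v → lb L u = lb L v →
      lt' (lb L u).2.2 (vl τ u) (vl τ v) := fun s => by
    simp only [gridSt, List.mem_filter, decide_eq_true_eq]
    refine and_congr_right fun _ => ⟨fun h u hu v hv e1 e2 e3 => lt'_total (fun e4 => ?_)
      fun e4 => h ⟨u, hu, v, hv, e1, e2, e3, e4⟩, ?_⟩
    · have := hinj _ hv _ hu e4
      omega
    · rintro h ⟨u, hu, v, hv, e1, e2, e3, e4⟩
      exact lt'_asymm e4 (h u hu v hv e1 e2 e3)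
  have k1 : ∀ a ∈ S, ∃ w ∈ gridSt τ S L, w ≤ a ∧ B w = B a := fun a ha => by
    obtain ⟨w, ⟨w1, w2⟩, w3⟩ := exists_min (fun w => w ∈ S ∧ B w = B a) id ⟨a, ha, rfl⟩
    refine ⟨w, (hm w).2 ⟨w1, fun u hu v hv e1 e2 => h2 u hu v hv (by omega) fun e3 => ?_⟩,
      w3 a ⟨ha, rfl⟩, w2⟩
    have l1 := hB.mono u hu w w1 e1.le
    have l2 := hB.mono w w1 v hv e2
    have l3 : w ≤ u := w3 u ⟨hu, by omega⟩
    omega
  have k2 : ∀ s ∈ gridSt τ S L, ∀ a ∈ S, Blk (gridSt τ S L) s a → B s = B a := fun s hs a ha h => by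
    obtain ⟨w, w1, w2, w3⟩ := k1 a ha
    have l1 := hB.mono w ((hm w).1 w1).1 s ((hm s).1 hs).1 (h.2 w w1 w2)
    have l2 := hB.mono s ((hm s).1 hs).1 a ha h.1
    omega
  refine ⟨⟨fun s hs => ((hm s).1 hs).1, fun a ha => (k1 a ha).imp fun w h => ⟨h.1, h.2.1⟩, ?_,
    fun s hs t ht a ha b hb e1 e2 e3 => ?_, fun s hs t ht e1 e2 =>
      ((hm t).1 ht).2 s ((hm s).1 hs).1 t ((hm t).1 ht).1 e1 le_rfl e2⟩,
    fun s hs a ha h => h1 s ((hm s).1 hs).1 a ha (k2 s hs a ha h)⟩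
  · obtain ⟨a, ha, b, hb, hab⟩ := hB.two
    obtain ⟨u, u1, -, u2⟩ := k1 a ha
    obtain ⟨v, v1, -, v2⟩ := k1 b hb
    rcases lt_trichotomy u v with h | rfl | h
    · exact ⟨u, u1, v, v1, h⟩
    · omega
    · exact ⟨v, v1, u, u1, h⟩
  · have s1 := (hm s).1 hs
    have t1 := (hm t).1 ht
    have l1 := k2 s hs a ha e1
    have l2 := k2 t ht b hb e2
    by_cases e4 : B s = B t
    swap
    · exact hB.unif s s1.1 a ha t t1.1 b hb l1 l2 e4 e3
    have m1 := h1 s s1.1 t t1.1 e4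
    have m2 := h1 a ha b hb (by omega)
    have m3 := h1 s s1.1 a ha l1
    rcases lt_trichotomy s t with h | rfl | h
    · have n1 := t1.2 s s1.1 t t1.1 h le_rfl m1
      have n2 := t1.2 a ha b hb (by have := e1.2 t ht; omega) e2.1 m2
      rw [← m3] at n2
      revert n1 n2
      cases (lb L s).2.2 <;> (simp only [lt', Bool.false_eq_true, false_and, true_and, false_or, gt_iff_lt, Bool.true_eq_false, or_false, imp_self, implies_true]; try omega)
    · omega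
    · have n1 := s1.2 t t1.1 s s1.1 h le_rfl m1.symm
      have n2 := s1.2 b hb a ha (by have := e2.2 s hs; omega) e1.1 m2.symm
      rw [← m2, ← m3] at n2
      rw [← m1] at n1
      revert n1 n2
      cases (lb L s).2.2 <;> (simp only [lt', Bool.false_eq_true, false_and, true_and, false_or, gt_iff_lt, imp_self, implies_true, Bool.true_eq_false, or_false]; try omega)

/-- A candidate that fits the embedding. -/
def Fits (K : ℕ) (t : List (List Bool)) (π τ : List ℕ) (e : Ent) (f : ℕ → ℕ) : Prop :=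
  ∃ c ∈ cands K t π τ e, Valid τ (ptsT τ e) c.1 c.2.1 ∧
    ∀ x ∈ ptsP π e, ∀ s ∈ c.1, Blk c.1 s (f x) → lb c.2.1 s = lb c.2.2 x

theorem grid_fits (hπ : Good π) (hτ : Good τ) {f B : ℕ → ℕ} (hf : IsEmb π τ e f) {o : ℕ}
    (ho : o < 3) (hB : Blocks {x | x ∈ ptsT τ e} (vl τ) B)
    (hG : GridQ K (dir3 t o) {x | x ∈ ptsT τ e} (vl τ) B) : Fits K t π τ e f := by
  obtain ⟨c, r, h1, h2⟩ := hG
  have hS : ∀ x ∈ ptsT τ e, x < τ.length := fun x hx => (mem_ptsT.1 hx).1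
  have hI : ∀ x ∈ ptsP π e, x < π.length := fun x hx => (mem_ptsP.1 hx).1
  obtain ⟨Θ1, a1, b1⟩ := exists_lines K τ.length (· ∈ ptsT τ e) id c
    (fun x hx => ⟨hS x hx, (h1 x hx).1⟩) (fun x y hx hy => (h2 x hx y hy).1)
  obtain ⟨Θ2, a2, b2⟩ := exists_lines K τ.length (· ∈ ptsT τ e) (vl τ) r
    (fun x hx => ⟨(hτ x (hS x hx)).1, (h1 x hx).2⟩) (fun x y hx hy => (h2 x hx y hy).2.1)
  obtain ⟨Θ3, a3, b3⟩ := exists_lines K π.length (· ∈ ptsP π e) id (fun x => c (f x))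
    (fun x hx => ⟨hI x hx, (h1 _ (hf.1 x hx)).1⟩) (fun x y hx hy h => by
      rcases (show x ≤ y from h).eq_or_lt with rfl | h
      · exact le_rfl
      · exact (h2 _ (hf.1 x hx) _ (hf.1 y hy)).1 ((hf.2 x hx y hy).1 h).le)
  obtain ⟨Θ4, a4, b4⟩ := exists_lines K π.length (· ∈ ptsP π e) (vl π) (fun x => r (f x))
    (fun x hx => ⟨(hπ x (hI x hx)).1, (h1 _ (hf.1 x hx)).2⟩) (fun x y hx hy h => by
      rcases h.eq_or_lt with h | h
      · rw [inj_ptsP hπ x hx y hy h]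
      · exact (h2 _ (hf.1 x hx) _ (hf.1 y hy)).2.1 ((hf.2 x hx y hy).2 h).le)
  have l1 : ∀ a ∈ ptsT τ e, lb (gridLab t o τ Θ1 Θ2) a = (c a, r a, dir3 t o (c a) (r a)) :=
    fun a ha => by rw [gridLab, lb_map _ (hS a ha), b2 a ha, show cnt Θ1 a = c a from b1 a ha]
  have l2 : ∀ x ∈ ptsP π e, lb (gridLab t o π Θ3 Θ4) x =
      (c (f x), r (f x), dir3 t o (c (f x)) (r (f x))) :=
    fun x hx => by rw [gridLab, lb_map _ (hI x hx), b4 x hx, show cnt Θ3 x = c (f x) from b3 x hx]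
  obtain ⟨k1, k2⟩ := grid_valid (L := gridLab t o τ Θ1 Θ2) (inj_ptsT hτ) hB
    (fun a ha b hb h => by
      obtain ⟨e1, e2⟩ := (h2 a ha b hb).2.2.1 h
      rw [l1 a ha, l1 b hb, e1, e2])
    (fun a ha b hb e1 e2 e3 => by
      rw [l1 a ha, l1 b hb] at e3
      rw [l1 a ha]
      simp only [Prod.mk.injEq] at e3
      exact (h2 a ha b hb).2.2.2 e1 e2 e3.1 e3.2.1)
  refine ⟨(_, gridLab t o τ Θ1 Θ2, gridLab t o π Θ3 Θ4), List.mem_append_left _ (List.mem_map.2
    ⟨(o, (Θ1, Θ2), (Θ3, Θ4)), ?_, rfl⟩), k1, fun x hx s hs h => ?_⟩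
  · simp only [List.mem_product, List.mem_range]
    exact ⟨ho, ⟨a1, a2⟩, a3, a4⟩
  · rw [k2 s hs _ (hf.1 x hx) h, l1 _ (hf.1 x hx), l2 x hx]

theorem cut_fits (hπ : Good π) (hτ : Good τ) {f : ℕ → ℕ} (hf : IsEmb π τ e f) {d : Bool} {i : ℕ}
    (h : Cut (ptsT τ e) τ d i) : Fits K t π τ e f := by
  obtain ⟨⟨x, hx, h1⟩, ⟨y, hy, h2⟩, h3⟩ := h
  refine grid_fits hπ hτ hf (o := if d then 0 else 1) (B := fun a => if a < i then 0 else 1)
    (by split_ifs <;> omega) ⟨fun a _ b _ h => by split_ifs <;> omega,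
      ⟨x, hx, y, hy, by split_ifs <;> omega⟩, fun a ha a' ha' b hb b' hb' e1 e2 e3 e4 => ?_⟩
    ⟨fun _ => 0, fun _ => 0, by simp, fun a ha b hb => ⟨by simp, by simp, by simp,
      fun e1 e2 _ _ => ?_⟩⟩
  · have l1 := h3 a ha b hb
    have l2 := h3 b hb a ha
    have l3 := h3 a' ha' b' hb'
    have l4 := h3 b' hb' a' ha'
    split_ifs at e1 e2 e3 <;> cases d <;> simp only [lt', Bool.false_eq_true, false_and, true_and, false_or, Bool.true_eq_false, or_false] at l1 l2 l3 l4 <;> omega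
  · have l1 := h3 a ha b hb (by simp only at e2; split_ifs at e2 <;> omega)
      (by simp only at e2; split_ifs at e2 <;> omega)
    cases d <;> simpa [dir3] using l1

theorem av_fits (hπ : Good π) (hτ : Good τ) {f B : ℕ → ℕ} (hf : IsEmb π τ e f) {d : Bool}
    (hB : Blocks {x | x ∈ ptsT τ e} (vl τ) B) (hA : AvQ d {x | x ∈ ptsT τ e} (vl τ) B)
    (hind : ∀ d i, ¬ Cut (ptsT τ e) τ d i) (hind' : ∀ d i, ¬ Cut (ptsP π e) π d i)
    (h2 : ∃ a ∈ ptsP π e, ∃ b ∈ ptsP π e, a ≠ b) : Fits K t π τ e f := by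
  classical
  have hinj := inj_ptsT (e := e) hτ
  have hinj' := inj_ptsP (e := e) hπ
  have hS : ∀ x ∈ ptsT τ e, x < τ.length := fun x hx => (mem_ptsT.1 hx).1
  have hI : ∀ x ∈ ptsP π e, x < π.length := fun x hx => (mem_ptsP.1 hx).1
  generalize hS' : ptsT τ e = S at hB hA hind hinj hS
  have h3 : ∃ a ∈ S, ∃ b ∈ S, a ≠ b := by
    obtain ⟨a, ha, b, hb, h⟩ := hB.two
    exact ⟨a, ha, b, hb, fun e => h (by rw [e])⟩
  have hm : ∀ s, s ∈ simSt τ S ↔ s ∈ S ∧ ∀ u ∈ S, u < s → ¬ Sim S τ u s := fun s => by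
    simp only [simSt, not_exists, not_and, List.mem_filter, decide_eq_true_eq]
  have k1 : ∀ a ∈ S, ∃ w ∈ simSt τ S, w ≤ a ∧ Sim S τ w a := fun a ha => by
    obtain ⟨w, ⟨w1, w2⟩, w3⟩ := exists_min (fun w => w ∈ S ∧ Sim S τ w a) id
      ⟨a, ha, sim_refl ha h3⟩
    exact ⟨w, (hm w).2 ⟨w1, fun u hu e1 e2 => absurd (w3 u ⟨hu, e2.trans hinj hind w1 w2⟩)
      (not_le.2 e1)⟩, w3 a ⟨ha, sim_refl ha h3⟩, w2⟩
  have k2 : ∀ s, ∀ a ∈ S, Blk (simSt τ S) s a → Sim S τ s a := fun s a ha h => by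
    obtain ⟨w, w1, w2, u, hu, v, hv, h0, e1, e2, e3, e4⟩ := k1 a ha
    exact ⟨u, hu, v, hv, h0, e1.trans (h.2 w w1 w2), h.1.trans e4, e3, e4⟩
  have k3 : ∀ s ∈ simSt τ S, ∀ t ∈ simSt τ S, s ≠ t → ¬ Sim S τ s t := fun s hs t ht h h' => by
    rcases lt_or_gt_of_ne h with h | h
    · exact ((hm t).1 ht).2 s ((hm s).1 hs).1 h h'
    · exact ((hm s).1 hs).2 t ((hm t).1 ht).1 h h'.symm
  have k4 : ∀ u ∈ S, ∀ s ∈ simSt τ S, ∀ t ∈ simSt τ S, u < s → s < t →
      lt' d (vl τ t) (vl τ s) → ¬ lt' d (vl τ s) (vl τ u) := fun u hu s hs t ht e1 e2 =>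
    hA u hu s ((hm s).1 hs).1 t ((hm t).1 ht).1 e1 e2
      (fun h => ((hm s).1 hs).2 u hu e1 (hB.sim hu ((hm s).1 hs).1 h))
      (fun h => k3 s hs t ht e2.ne (hB.sim ((hm s).1 hs).1 ((hm t).1 ht).1 h))
  have l1 : ∀ a ∈ S, lb (avLab τ S d) a =
      (if ∃ s ∈ S, s < a ∧ lt' d (vl τ a) (vl τ s) then 0 else 1, 0, d) :=
    fun a ha => by rw [avLab, lb_map _ (hS a ha)]
  have hV : Valid τ S (simSt τ S) (avLab τ S d) := by
    refine ⟨fun s hs => ((hm s).1 hs).1, fun a ha => (k1 a ha).imp fun w h => ⟨h.1, h.2.1⟩, ?_,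
      fun s hs t ht a ha b hb e1 e2 e3 => ?_, fun s hs t ht e1 e2 => ?_⟩
    · obtain ⟨a, ha, -⟩ := id h3
      obtain ⟨b, hb, hab, -⟩ := exists_partner hinj hind ha h3 true
      obtain ⟨u, u1, -, u2⟩ := k1 a ha
      obtain ⟨v, v1, -, v2⟩ := k1 b hb
      rcases lt_trichotomy u v with h | rfl | h
      · exact ⟨u, u1, v, v1, h⟩
      · exact absurd (u2.symm.trans hinj hind ((hm u).1 u1).1 v2) hab
      · exact ⟨v, v1, u, u1, h⟩
    · have s1 := ((hm s).1 hs).1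
      have t1 := ((hm t).1 ht).1
      have m0 := k3 s hs t ht (fun h => by simp [h] at e3)
      have m1 := k2 s a ha e1
      have m2 : ¬ Sim S τ a t := fun h => m0 (m1.trans hinj hind ha h)
      obtain ⟨u, hu, v, hv, h0, n1, n2, n3, n4⟩ := m1
      obtain ⟨u', hu', v', hv', h0', n5, n6, n7, n8⟩ := k2 t b hb e2
      refine (h0'.1 a ha ?_ t t1 b hb n5 n6 n7 n8).1 ((h0.1 t t1 ?_ s s1 a ha n1 n2 n3 n4).2 e3)
      · by_contra hn
        exact m2 ⟨u', hu', v', hv', h0', by omega, by omega, n5, n6⟩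
      · by_contra hn
        exact m0 ⟨u, hu, v, hv, h0, n1, n2, by omega, by omega⟩
    · have s1 := ((hm s).1 hs).1
      have t1 := ((hm t).1 ht).1
      rw [l1 s s1, l1 t t1] at e2
      rw [l1 s s1]
      refine lt'_total (fun h => e1.ne (hinj _ t1 _ s1 h).symm) fun h => ?_
      rw [if_pos (c := ∃ s ∈ S, s < t ∧ lt' d (vl τ t) (vl τ s)) ⟨s, s1, e1, h⟩] at e2
      split_ifs at e2 with h'
      · obtain ⟨u, hu, e3, e4⟩ := h'
        exact k4 u hu s hs t ht e3 e1 h e4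
      · simp at e2
  have hf1 : ∀ x ∈ ptsP π e, f x ∈ S := hS' ▸ hf.1
  have : ∀ x ∈ ptsP π e, ∃ s ∈ simSt τ S, Blk (simSt τ S) s (f x) :=
    fun x hx => hV.exists_blk (hf1 x hx)
  choose! g g1 g2 using this
  suffices h : ∃ o < 3, ∀ x ∈ ptsP π e, lb (avLab τ S d) (g x) = lb (avLab' π (ptsP π e) d o) x by
    obtain ⟨o, ho, h⟩ := h
    refine ⟨(simSt τ S, avLab τ S d, avLab' π (ptsP π e) d o), List.mem_append_right _
      (List.mem_map.2 ⟨(d, o), ?_, by rw [hS']⟩), hS' ▸ hV, fun x hx s hs h' => ?_⟩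
    · simp only [List.mem_product, List.mem_range]
      exact ⟨by cases d <;> simp, ho⟩
    · rw [← h x hx, le_antisymm ((g2 x hx).2 s hs h'.1) (h'.2 _ (g1 x hx) (g2 x hx).1)]
  have gS : ∀ x ∈ ptsP π e, g x ∈ S := fun x hx => ((hm _).1 (g1 x hx)).1
  by_cases hc : ∃ a ∈ ptsP π e, ∃ b ∈ ptsP π e, g a ≠ g b
  swap
  · push Not at hc
    obtain ⟨a, ha, -⟩ := h2
    refine ⟨(lb (avLab τ S d) (g a)).1, ?_, fun x hx => ?_⟩
    · rw [l1 _ (gS a ha)]
      split_ifs <;> simp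
    · rw [avLab', lb_map _ (hI x hx), hc x hx a ha, l1 _ (gS a ha),
        if_pos (c := _ < 2) (by simp only; split_ifs <;> omega)]
  have m1 : ∀ x ∈ ptsP π e, ∀ y ∈ ptsP π e, (x ≤ y → g x ≤ g y) ∧
      (g x ≠ g y → (vl π x < vl π y ↔ vl τ (g x) < vl τ (g y))) := fun x hx y hy => by
    have n1 := hV.g_mono (g1 x hx) (g1 y hy) (hf1 x hx) (hf1 y hy) (g2 x hx) (g2 y hy)
    have n2 := hV.g_mono (g1 y hy) (g1 x hx) (hf1 y hy) (hf1 x hx) (g2 y hy) (g2 x hx)
    refine ⟨fun h => ?_, fun h => ?_⟩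
    · rcases h.eq_or_lt with rfl | h
      · exact le_rfl
      · exact n1.1 ((hf.2 x hx y hy).1 h).le
    · have n3 := fun h => n1.2 ((hf.2 x hx y hy).2 h)
      have n4 := fun h => n2.2 ((hf.2 y hy x hx).2 h)
      have n5 := mt (hinj _ (gS x hx) _ (gS y hy)) h
      have n6 : vl π x ≠ vl π y := fun e => h (by rw [hinj' x hx y hy e])
      omega
  have hG : Blocks {x | x ∈ ptsP π e} (vl π) g := ⟨fun a ha b hb => (m1 a ha b hb).1, hc,
    fun a ha a' ha' b hb b' hb' e1 e2 e3 e4 => ((m1 a' ha' b' hb').2 (e1 ▸ e2 ▸ e3)).2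
      (e1 ▸ e2 ▸ ((m1 a ha b hb).2 e3).1 e4)⟩
  have m2 : ∀ x ∈ ptsP π e, ∀ y ∈ ptsP π e, ¬ Sim (ptsP π e) π x y →
      (x < y → g x < g y) ∧ (lt' d (vl π y) (vl π x) → lt' d (vl τ (g y)) (vl τ (g x))) := by
    intro x hx y hy h
    have n1 : g x ≠ g y := fun e => h (hG.sim hx hy e)
    refine ⟨fun h => lt_of_le_of_ne ((m1 x hx y hy).1 h.le) n1, ?_⟩
    simp only [lt', (m1 x hx y hy).2 n1, (m1 y hy x hx).2 n1.symm]
    exact id
  refine ⟨2, by omega, fun x hx => ?_⟩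
  rw [avLab', lb_map _ (hI x hx), l1 _ (gS x hx), if_neg (lt_irrefl 2)]
  by_cases h : ∃ y ∈ ptsP π e, x < y ∧ lt' d (vl π y) (vl π x) ∧ ¬ Sim (ptsP π e) π x y
  · rw [if_pos h, if_neg]
    obtain ⟨y, hy, e1, e2, e3⟩ := h
    rintro ⟨u, hu, e4, e5⟩
    exact k4 u hu _ (g1 x hx) _ (g1 y hy) e4 ((m2 x hx y hy e3).1 e1) ((m2 x hx y hy e3).2 e2) e5
  · rw [if_neg h, if_pos]
    obtain ⟨y, hy, e1, e2 | e2⟩ := exists_partner hinj' hind' hx h2 d
    · exact absurd ⟨y, hy, e2.1, e2.2, e1⟩ h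
    · have := m2 y hy x hx fun h => e1 h.symm
      exact ⟨g y, gS y hy, this.1 e2.1, this.2 e2.2⟩

theorem rule_sound (hτ : Good τ) (he : e ∈ ents π τ) (hT : ∀ e' ∈ T, ∃ f, IsEmb π τ e' f)
    (h : Rule K t π τ T e) : ∃ f, IsEmb π τ e f := by
  rcases h with h | ⟨i, -, j, -, v, -, h1, h2, h3, h4, h⟩ | ⟨c, -, hV, h⟩
  · by_cases hx : ∃ x, x ∈ ptsP π e
    · obtain ⟨x, hx⟩ := hx
      obtain ⟨s, hs, h⟩ := h x hx
      exact ⟨fun _ => s, fun _ _ => hs, fun y hy z hz => by simp [h y hy, h z hz]⟩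
    · exact ⟨id, fun x h => absurd ⟨x, h⟩ hx, fun x h => absurd ⟨x, h⟩ hx⟩
  · obtain ⟨d, V1, V2, hc, k1, k2, hd⟩ : ∃ (d : Bool) (V1 V2 : ℕ × ℕ), Cut (ptsP π e) π d i ∧
        ((e.1.1, i), (e.2.1.1, j), V1) ∈ T ∧ ((i, e.1.2), (j, e.2.1.2), V2) ∈ T ∧
        ((d = true ∧ V1 = (e.2.2.1, v) ∧ V2 = (v, e.2.2.2)) ∨
          (d = false ∧ V1 = (v, e.2.2.2) ∧ V2 = (e.2.2.1, v))) := by
      rcases h with h | h
      · exact ⟨_, _, _, h.1, h.2.1, h.2.2, Or.inl ⟨rfl, rfl, rfl⟩⟩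
      · exact ⟨_, _, _, h.1, h.2.1, h.2.2, Or.inr ⟨rfl, rfl, rfl⟩⟩
    obtain ⟨f1, a1, a2⟩ := hT _ k1
    obtain ⟨f2, b1, b2⟩ := hT _ k2
    have m1 : ∀ x ∈ ptsP π e, x < i → x ∈ ptsP π ((e.1.1, i), (e.2.1.1, j), V1) :=
      fun x hx h => mem_ptsP.2 ⟨(mem_ptsP.1 hx).1, (mem_ptsP.1 hx).2.1, h⟩
    have m2 : ∀ x ∈ ptsP π e, ¬ x < i → x ∈ ptsP π ((i, e.1.2), (j, e.2.1.2), V2) :=
      fun x hx h => mem_ptsP.2 ⟨(mem_ptsP.1 hx).1, not_lt.1 h, (mem_ptsP.1 hx).2.2⟩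
    refine ⟨fun x => if x < i then f1 x else f2 x, fun x hx => ?_, fun x hx y hy => ?_⟩
    · by_cases h : x < i
      · have := mem_ptsT.1 (a1 x (m1 x hx h))
        simp only [h, if_true, mem_ptsT]
        rcases hd with ⟨-, rfl, rfl⟩ | ⟨-, rfl, rfl⟩ <;> simp only at this <;> omega
      · have := mem_ptsT.1 (b1 x (m2 x hx h))
        simp only [h, if_false, mem_ptsT]
        rcases hd with ⟨-, rfl, rfl⟩ | ⟨-, rfl, rfl⟩ <;> simp only at this <;> omega
    · by_cases e1 : x < i <;> by_cases e2 : y < i <;> simp only [e1, e2, if_true, if_false]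
      · exact a2 x (m1 x hx e1) y (m1 y hy e2)
      · have n1 := mem_ptsT.1 (a1 x (m1 x hx e1))
        have n2 := mem_ptsT.1 (b1 y (m2 y hy e2))
        have n3 := hc.2.2 x hx y hy e1 (not_lt.1 e2)
        rcases hd with ⟨rfl, rfl, rfl⟩ | ⟨rfl, rfl, rfl⟩ <;> simp only [lt', true_and, Bool.true_eq_false, false_and, or_false, Bool.false_eq_true, false_or] at n1 n2 n3 <;> omega
      · have n1 := mem_ptsT.1 (a1 y (m1 y hy e2))
        have n2 := mem_ptsT.1 (b1 x (m2 x hx e1))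
        have n3 := hc.2.2 y hy x hx e2 (not_lt.1 e1)
        rcases hd with ⟨rfl, rfl, rfl⟩ | ⟨rfl, rfl, rfl⟩ <;> simp only [lt', true_and, Bool.true_eq_false, false_and, or_false, Bool.false_eq_true, false_or] at n1 n2 n3 <;> omega
      · exact b2 x (m2 x hx e1) y (m2 y hy e2)
  · obtain ⟨g, hg⟩ := gok_of_sat hV h
    exact emb_of_gok hτ (mem_ents.1 he).2.1.2 hT hV hg

theorem IsEmb.sub {e' : Ent} {f : ℕ → ℕ} (hf : IsEmb π τ e f) (h1 : e.1.1 ≤ e'.1.1)
    (h2 : e'.1.2 ≤ e.1.2) (h3 : ∀ x ∈ ptsP π e, e'.1.1 ≤ x → x < e'.1.2 → f x ∈ ptsT τ e') :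
    ∃ f, IsEmb π τ e' f := by
  have m : ∀ x ∈ ptsP π e', x ∈ ptsP π e := fun x hx => by
    have := mem_ptsP.1 hx
    exact mem_ptsP.2 ⟨this.1, by omega, by omega⟩
  exact ⟨f, fun x hx => h3 x (m x hx) (mem_ptsP.1 hx).2.1 (mem_ptsP.1 hx).2.2,
    fun x hx y hy => hf.2 x (m x hx) y (m y hy)⟩

theorem rule_complete (hπ : Good π) (hτ : Good τ) (hH : Her K t τ) (he : e ∈ ents π τ)
    (hT : ∀ e' ∈ ents π τ, meas e' < meas e → (∃ f, IsEmb π τ e' f) → e' ∈ T)
    {f : ℕ → ℕ} (hf : IsEmb π τ e f) : Rule K t π τ T e := by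
  by_cases h2 : ∃ a ∈ ptsP π e, ∃ b ∈ ptsP π e, a ≠ b
  swap
  · push Not at h2
    exact Or.inl fun x hx => ⟨_, hf.1 x hx, fun y hy => h2 y hy x hx⟩
  by_cases hc : ∃ d i, Cut (ptsP π e) π d i
  · obtain ⟨d, i, hc⟩ := hc
    obtain ⟨⟨x0, hx0, c1⟩, c2, c3⟩ := id hc
    obtain ⟨y0, ⟨hy0, c4⟩, c5⟩ := exists_min _ f c2
    have l1 := mem_ptsP.1 hx0
    have l2 := mem_ptsP.1 hy0
    have l3 := mem_ptsT.1 (hf.1 y0 hy0)
    have l4 := mem_ents.1 he
    have l5 : ∀ x ∈ ptsP π e, x < i → f x < f y0 := fun x hx h => (hf.2 x hx y0 hy0).1 (by omega)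
    refine Or.inr (Or.inl ⟨i, by omega, f y0, by omega, ?_⟩)
    cases d
    · obtain ⟨z, ⟨hz, c6⟩, c7⟩ := exists_min (fun x => x ∈ ptsP π e ∧ x < i) (fun x => vl τ (f x))
        ⟨x0, hx0, c1⟩
      have l6 := mem_ptsT.1 (hf.1 z hz)
      refine ⟨vl τ (f z), by omega, l3.2.1, l3.2.2.1.le, l6.2.2.2.1, l6.2.2.2.2.le,
        Or.inr ⟨hc, hT _ (mem_ents.2 (by simp only; omega)) (by simp only [meas]; omega)
          (hf.sub le_rfl (by simp only; omega) fun x hx e1 e2 => ?_),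
        hT _ (mem_ents.2 (by simp only; omega)) (by simp only [meas]; omega)
          (hf.sub (by simp only; omega) le_rfl fun x hx e1 e2 => ?_)⟩⟩
      · have n1 := mem_ptsT.1 (hf.1 x hx)
        exact mem_ptsT.2 ⟨n1.1, n1.2.1, l5 x hx e2, c7 x ⟨hx, e2⟩, n1.2.2.2.2⟩
      · have n1 := mem_ptsT.1 (hf.1 x hx)
        exact mem_ptsT.2 ⟨n1.1, c5 x ⟨hx, e1⟩, n1.2.2.1, n1.2.2.2.1,
          (hf.2 x hx z hz).2 (by simpa [lt'] using c3 z hz x hx c6 e1)⟩
    · obtain ⟨z, ⟨hz, c6⟩, c7⟩ := exists_min _ (fun x => vl τ (f x)) c2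
      have l6 := mem_ptsT.1 (hf.1 z hz)
      refine ⟨vl τ (f z), by omega, l3.2.1, l3.2.2.1.le, l6.2.2.2.1, l6.2.2.2.2.le,
        Or.inl ⟨hc, hT _ (mem_ents.2 (by simp only; omega)) (by simp only [meas]; omega)
          (hf.sub le_rfl (by simp only; omega) fun x hx e1 e2 => ?_),
        hT _ (mem_ents.2 (by simp only; omega)) (by simp only [meas]; omega)
          (hf.sub (by simp only; omega) le_rfl fun x hx e1 e2 => ?_)⟩⟩
      · have n1 := mem_ptsT.1 (hf.1 x hx)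
        exact mem_ptsT.2 ⟨n1.1, n1.2.1, l5 x hx e2, n1.2.2.2.1,
          (hf.2 x hx z hz).2 (by simpa [lt'] using c3 x hx z hz e2 c6)⟩
      · have n1 := mem_ptsT.1 (hf.1 x hx)
        exact mem_ptsT.2 ⟨n1.1, c5 x ⟨hx, e1⟩, n1.2.2.1, c7 x ⟨hx, e1⟩, n1.2.2.2.2⟩
  push Not at hc
  have key : Fits K t π τ e f := by
    by_cases hc' : ∃ d i, Cut (ptsT τ e) τ d i
    · obtain ⟨d, i, h⟩ := hc'
      exact cut_fits hπ hτ hf h
    push Not at hc'
    obtain ⟨B, hB, h | ⟨d, h⟩⟩ := hH {x | x ∈ ptsT τ e} (fun x hx => (mem_ptsT.1 hx).1) (by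
      obtain ⟨a, ha, b, hb, hab⟩ := h2
      refine ⟨_, hf.1 a ha, _, hf.1 b hb, ?_⟩
      rcases lt_or_gt_of_ne hab with h | h
      · exact ((hf.2 a ha b hb).1 h).ne
      · exact ((hf.2 b hb a ha).1 h).ne')
    · exact grid_fits hπ hτ hf (o := 2) (by omega) hB h
    · exact av_fits hπ hτ hf hB h hc' hc h2
  obtain ⟨c, h3, hV, h4⟩ := key
  obtain ⟨g, hg⟩ := gok_of_emb he hT hV hf h4
  exact Or.inr (Or.inr ⟨c, h3, hV, sat_of_gok hV hg⟩)

theorem iter_spec (hπ : Good π) (hτ : Good τ) (hH : Her K t τ) (i : ℕ) :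
    (∀ e ∈ (step K t π τ)^[i] [], ∃ f, IsEmb π τ e f) ∧
      ∀ e ∈ ents π τ, meas e < i → (∃ f, IsEmb π τ e f) → e ∈ (step K t π τ)^[i] [] := by
  induction i with
  | zero => simp
  | succ i ih =>
    rw [Function.iterate_succ_apply']
    simp only [step, List.mem_filter, decide_eq_true_eq]
    exact ⟨fun e he => rule_sound hτ he.1 ih.1 he.2, fun e he h ⟨f, hf⟩ =>
      ⟨he, rule_complete hπ hτ hH he (fun e' he' h' => ih.2 e' he' (by omega)) hf⟩⟩

theorem alg_spec {k l : ℕ} (M : Fin k → Fin l → Cell) (π τ : Pm)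
    (h : SubCl (fun σ => InGrid M σ ∨ Av321 σ ∨ Av123 σ) τ) :
    alg (k + l) (tab M) (code π, code τ) = true ↔ Contains τ π := by
  obtain ⟨h1, h2⟩ := iter_spec (good_code π) (good_code τ) (her_of_subCl M h)
    ((code π).length + (code τ).length + 1)
  simp only [alg, decide_eq_true_eq]
  set e : Ent := ((0, (code π).length), (0, (code τ).length), (0, (code τ).length)) with he
  have m1 : ∀ x, x ∈ ptsP (code π) e ↔ x < π.1 := fun x => by simp [mem_ptsP, he, length_code]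
  constructor
  · intro h
    obtain ⟨f, f1, f2⟩ := h1 e h
    have f3 : ∀ x : Fin π.1, f x < τ.1 := fun x =>
      length_code τ ▸ (mem_ptsT.1 (f1 x ((m1 x).2 x.2))).1
    have f4 : ∀ x y : Fin π.1, π.2 x < π.2 y → τ.2 ⟨f x, f3 x⟩ < τ.2 ⟨f y, f3 y⟩ := fun x y h => by
      have := (f2 x ((m1 x).2 x.2) y ((m1 y).2 y.2)).2 (by rwa [vl_code, vl_code])
      rwa [Fin.lt_def, ← vl_code, ← vl_code]
    refine ⟨fun x => ⟨f x, f3 x⟩, fun x y h => (f2 x ((m1 x).2 x.2) y ((m1 y).2 y.2)).1 h,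
      fun x y => ⟨f4 x y, fun h => ?_⟩⟩
    rcases lt_trichotomy (π.2 x) (π.2 y) with h' | h' | h'
    · exact h'
    · rw [π.2.injective h'] at h
      exact absurd h (lt_irrefl _)
    · exact absurd h (lt_asymm (f4 y x h'))
  · rintro ⟨f, f1, f2⟩
    refine h2 e (mem_ents.2 (by simp [he])) (by simp [he, meas])
      ⟨fun x => if h : x < π.1 then f ⟨x, h⟩ else 0, fun x hx => ?_, fun x hx y hy => ?_⟩
    · simp only [(m1 x).1 hx, dif_pos, mem_ptsT, he, length_code, vl_code]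
      simp
    · simp only [(m1 x).1 hx, (m1 y).1 hy, dif_pos, vl_code]
      refine ⟨fun h => f1 (show (⟨x, _⟩ : Fin π.1) < ⟨y, _⟩ from h), fun h => (f2 _ _).1 ?_⟩
      rwa [Fin.lt_def, ← vl_code, ← vl_code]

end Pool.Agent.MP_514f48_lc

end
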